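import Pool.Agent.TH346.CG.Defs2

/-!
# The subgroup generated by a set of small tripling is a bounded sumset (bounded exponent)
-/

set_option autoImplicit false

open Finset
open scoped Pointwise

namespace Pool.Agent.TH365.CG

open Pool.Agent.TH346.CG

lemma ks_add_mem {Γ : Type} [AddCommGroup Γ] [DecidableEq Γ] {E : Finset Γ} (a b : ℕ) {x y : Γ}
    (hx : x ∈ ks a E) (hy : y ∈ ks b E) : x + y ∈ ks (a + b) E := by
  induction b generalizing y with
  | zero =>
    have h1 : y = 0 := by simpa [ks] using hy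
    rw [h1, add_zero x]
    exact hx
  | succ b ih =>
    have h1 : y ∈ ks b E + E := hy
    obtain ⟨u, hu, e, he, rfl⟩ := Finset.mem_add.1 h1
    rw [← add_assoc x u e]
    exact Finset.add_mem_add (ih hu) he

lemma ks_mono {Γ : Type} [AddCommGroup Γ] [DecidableEq Γ] {E : Finset Γ} (h0 : 0 ∈ E) {a b : ℕ}
    (hab : a ≤ b) {x : Γ} (hx : x ∈ ks a E) : x ∈ ks b E := by
  induction b, hab using Nat.le_induction with
  | base => exact hx
  | succ b _ ih =>
    have h1 : x + 0 ∈ ks b E + E := Finset.add_mem_add ih h0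
    rw [add_zero] at h1
    exact h1

lemma ks_neg {Γ : Type} [AddCommGroup Γ] [DecidableEq Γ] {E : Finset Γ} (hE : -E = E) (m : ℕ)
    {x : Γ} (hx : x ∈ ks m E) : -x ∈ ks m E := by
  induction m generalizing x with
  | zero =>
    have h1 : x = 0 := by simpa [ks] using hx
    rw [h1, neg_zero]
    simp [ks]
  | succ m ih =>
    have h1 : x ∈ ks m E + E := hx
    obtain ⟨u, hu, e, he, rfl⟩ := Finset.mem_add.1 h1
    have h2 : -e ∈ E := by
      rw [← hE, Finset.mem_neg]
      exact ⟨e, he, rfl⟩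
    have h3 : -u + -e ∈ ks m E + E := Finset.add_mem_add (ih hu) h2
    rw [neg_add]
    exact h3

lemma ks_one {Γ : Type} [AddCommGroup Γ] [DecidableEq Γ] {E : Finset Γ} {x : Γ} (hx : x ∈ E) :
    x ∈ ks 1 E := by
  have h1 : (0 : Γ) + x ∈ ks 0 E + E := Finset.add_mem_add (by simp [ks]) hx
  rw [zero_add] at h1
  exact h1

lemma ks_smul {Γ : Type} [AddCommGroup Γ] [DecidableEq Γ] {E : Finset Γ} (a n : ℕ) {x : Γ}
    (hx : x ∈ ks a E) : n • x ∈ ks (a * n) E := by
  induction n with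
  | zero => simp [ks]
  | succ n ih =>
    rw [succ_nsmul, Nat.mul_succ]
    exact ks_add_mem _ _ ih hx

lemma ks_sum {Γ : Type} [AddCommGroup Γ] [DecidableEq Γ] {E : Finset Γ} (a : ℕ) (X : Finset Γ)
    (f : Γ → Γ) (hf : ∀ x ∈ X, f x ∈ ks a E) : ∑ x ∈ X, f x ∈ ks (a * X.card) E := by
  induction X using Finset.induction_on with
  | empty => simp [ks]
  | insert x X hx ih =>
    rw [Finset.sum_insert hx, Finset.card_insert_of_notMem hx, Nat.mul_succ, add_comm (f x)]
    exact ks_add_mem _ _ (ih fun y hy => hf y (Finset.mem_insert_of_mem hy))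
      (hf x (Finset.mem_insert_self x X))

/-- a finite set of translates of `E` in `ks 3 E` covering `ks 3 E` by translates of `ks 2 E` -/
lemma exists_cover {Γ : Type} [AddCommGroup Γ] [DecidableEq Γ] (K : ℕ) (E : Finset Γ)
    (h0 : 0 ∈ E) (hE : -E = E) (hK : (ks 4 E).card ≤ K * E.card) :
    ∃ X : Finset Γ, X ⊆ ks 3 E ∧ X.card ≤ K ∧
      ∀ y ∈ ks 3 E, ∃ x ∈ X, y - x ∈ ks 2 E := by
  classical
  let S : Finset (Finset Γ) := (ks 3 E).powerset.filter fun X =>
    ∀ x ∈ X, ∀ y ∈ X, x ≠ y → Disjoint (E.image (x + ·)) (E.image (y + ·))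
  have hS : S.Nonempty := ⟨∅, by simp [S]⟩
  obtain ⟨X, hXS, hmax⟩ := Finset.exists_max_image S Finset.card hS
  have hX := Finset.mem_filter.1 hXS
  have hX3 : X ⊆ ks 3 E := Finset.mem_powerset.1 hX.1
  have hEpos : 0 < E.card := Finset.card_pos.2 ⟨0, h0⟩
  refine ⟨X, hX3, ?_, ?_⟩
  · have h1 : (X.biUnion fun x => E.image (x + ·)).card = X.card * E.card := by
      rw [Finset.card_biUnion hX.2]
      rw [Finset.sum_congr rfl (fun x _ => Finset.card_image_of_injective E
        (add_right_injective x))]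
      rw [Finset.sum_const, smul_eq_mul]
    have h2 : (X.biUnion fun x => E.image (x + ·)) ⊆ ks 4 E := by
      intro z hz
      obtain ⟨x, hx, hz1⟩ := Finset.mem_biUnion.1 hz
      obtain ⟨e, he, rfl⟩ := Finset.mem_image.1 hz1
      exact Finset.add_mem_add (hX3 hx) he
    have h3 := (Finset.card_le_card h2).trans hK
    rw [h1] at h3
    exact Nat.le_of_mul_le_mul_right h3 hEpos
  · intro y hy
    by_contra hc
    push Not at hc
    have hyX : y ∉ X := by
      intro hyX
      apply hc y hyX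
      rw [sub_self]
      exact ks_mono h0 (Nat.zero_le 2) (by simp [ks])
    have hdis : ∀ x ∈ X, Disjoint (E.image (y + ·)) (E.image (x + ·)) := by
      intro x hx
      rw [Finset.disjoint_left]
      intro z hz1 hz2
      obtain ⟨e, he, rfl⟩ := Finset.mem_image.1 hz1
      obtain ⟨e', he', h1⟩ := Finset.mem_image.1 hz2
      have h1' : x + e' = y + e := h1
      apply hc x hx
      have h2 : y - x = e' + -e := by
        rw [sub_eq_iff_eq_add, add_comm (e' + -e) x, ← add_assoc, h1', add_neg_cancel_right]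
      rw [h2]
      have h3 : -e ∈ E := by
        rw [← hE, Finset.mem_neg]
        exact ⟨e, he, rfl⟩
      exact ks_add_mem 1 1 (ks_one he') (ks_one h3)
    have hins : insert y X ∈ S := by
      refine Finset.mem_filter.2 ⟨Finset.mem_powerset.2 ?_, ?_⟩
      · intro z hz
        rcases Finset.mem_insert.1 hz with rfl | hz
        · exact hy
        · exact hX3 hz
      · intro a ha b hb hab
        rcases Finset.mem_insert.1 ha with ha1 | ha1
        · rcases Finset.mem_insert.1 hb with hb1 | hb1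
          · exact absurd (ha1.trans hb1.symm) hab
          · rw [ha1]
            exact hdis b hb1
        · rcases Finset.mem_insert.1 hb with hb1 | hb1
          · rw [hb1]
            exact (hdis a ha1).symm
          · exact hX.2 a ha1 b hb1 hab
    have h4 := hmax _ hins
    rw [Finset.card_insert_of_notMem hyX] at h4
    omega

lemma ks_decomp {Γ : Type} [AddCommGroup Γ] [DecidableEq Γ] (E : Finset Γ) (h0 : 0 ∈ E)
    (X : Finset Γ) (hX : ∀ y ∈ ks 3 E, ∃ x ∈ X, y - x ∈ ks 2 E) (m : ℕ) (y : Γ)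
    (hy : y ∈ ks m E) : ∃ c : Γ → ℕ, y - ∑ x ∈ X, c x • x ∈ ks 2 E := by
  induction m generalizing y with
  | zero =>
    refine ⟨fun _ => 0, ?_⟩
    simp only [zero_smul, Finset.sum_const_zero, sub_zero]
    exact ks_mono h0 (Nat.zero_le 2) hy
  | succ m ih =>
    have h1 : y ∈ ks m E + E := hy
    obtain ⟨u, hu, e, he, rfl⟩ := Finset.mem_add.1 h1
    obtain ⟨c, hc⟩ := ih u hu
    obtain ⟨x₀, hx₀, h2⟩ := hX _ (ks_add_mem 2 1 hc (ks_one he))
    refine ⟨fun x => c x + if x = x₀ then 1 else 0, ?_⟩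
    have h3 : ∑ x ∈ X, (c x + if x = x₀ then 1 else 0) • x = ∑ x ∈ X, c x • x + x₀ := by
      simp only [add_smul, Finset.sum_add_distrib, ite_smul, one_smul, zero_smul]
      rw [Finset.sum_ite_eq' X x₀ (fun x => x), if_pos hx₀]
    rw [h3]
    have h4 : u + e - (∑ x ∈ X, c x • x + x₀) = u - ∑ x ∈ X, c x • x + e - x₀ := by abel
    rw [h4]
    exact h2

lemma exists_ks {Γ : Type} [AddCommGroup Γ] [DecidableEq Γ] (E : Finset Γ) (hE : -E = E) (h : Γ)
    (hh : h ∈ AddSubgroup.closure (E : Set Γ)) : ∃ m, h ∈ ks m E := by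
  induction hh using AddSubgroup.closure_induction with
  | mem x hx => exact ⟨1, ks_one (Finset.mem_coe.1 hx)⟩
  | zero => exact ⟨0, by simp [ks]⟩
  | add x y _ _ hx hy =>
    obtain ⟨a, ha⟩ := hx
    obtain ⟨b, hb⟩ := hy
    exact ⟨a + b, ks_add_mem a b ha hb⟩
  | neg x _ hx =>
    obtain ⟨a, ha⟩ := hx
    exact ⟨a, ks_neg hE a ha⟩

theorem torsion_gen {Γ : Type} [AddCommGroup Γ] [DecidableEq Γ] (K r : ℕ) (hr : 1 ≤ r)
    (htor : ∀ x : Γ, r • x = 0) (E : Finset Γ) (h0 : 0 ∈ E) (hE : -E = E)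
    (hK : (ks 4 E).card ≤ K * E.card) (h : Γ) (hh : h ∈ AddSubgroup.closure (E : Set Γ)) :
    h ∈ ks (3 * r * K + 2) E := by
  obtain ⟨X, hX3, hXK, hX⟩ := exists_cover K E h0 hE hK
  obtain ⟨m, hm⟩ := exists_ks E hE h hh
  obtain ⟨c, hc⟩ := ks_decomp E h0 X hX m h hm
  have h1 : ∀ x ∈ X, c x • x ∈ ks (3 * r) E := by
    intro x hx
    have h2 : c x • x = (c x % r) • x := by
      conv_lhs => rw [← Nat.mod_add_div (c x) r, add_smul, mul_comm r, mul_smul, htor, smul_zero,
        add_zero]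
    rw [h2]
    refine ks_mono h0 ?_ (ks_smul 3 (c x % r) (hX3 hx))
    exact Nat.mul_le_mul_left 3 (Nat.mod_lt _ hr).le
  have h2 := ks_sum (3 * r) X (fun x => c x • x) h1
  have h3 : ∑ x ∈ X, c x • x ∈ ks (3 * r * K) E :=
    ks_mono h0 (Nat.mul_le_mul_left (3 * r) hXK) h2
  have h4 := ks_add_mem _ _ h3 hc
  rwa [add_sub_cancel] at h4

end Pool.Agent.TH365.CG
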